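import Mathlib

set_option autoImplicit false

namespace Pool.Agent.H15QR

open Module Submodule

universe u v

variable {D : Type u} [DivisionRing D]

/-- `X` is nilpotent with cyclic blocks of sizes `a i` generated by the vectors `x i`. -/
structure Typ {V : Type v} [AddCommGroup V] [Module D V] {N : ℕ} (X : Module.End D V)
    (a : Fin N → ℕ) (x : Fin N → V) : Prop where
  hz : ∀ i, (X ^ (a i)) (x i) = 0
  sp : (⊤ : Submodule D V) ≤ span D (Set.range fun q : Fin N × ℕ => (X ^ q.2) (x q.1))
  ct : ∑ i, a i = finrank D V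

section general

variable {V : Type v} [AddCommGroup V] [Module D V]

theorem exists_functional {v : V} (hv : v ≠ 0) : ∃ f : V →ₗ[D] D, f v ≠ 0 := by
  classical
  set b := Basis.ofVectorSpace D V
  have h : b.repr v ≠ 0 := fun h => hv (by simpa using h)
  obtain ⟨i, hi⟩ := Finsupp.ne_iff.mp h
  exact ⟨b.coord i, by simpa [Basis.coord_apply] using hi⟩

theorem exists_functional₂ {v w : V} (hv : v ≠ 0) (hw : w ≠ 0) :
    ∃ f : V →ₗ[D] D, f v ≠ 0 ∧ f w ≠ 0 := by
  obtain ⟨f, hf⟩ := exists_functional (D := D) hv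
  obtain ⟨g, hg⟩ := exists_functional (D := D) hw
  by_cases h1 : f w = 0
  · by_cases h2 : g v = 0
    · exact ⟨f + g, by simpa [h2] using hf, by simpa [h1] using hg⟩
    · exact ⟨g, h2, hg⟩
  · exact ⟨f, hf, h1⟩

/-- Powers beyond the order kill. -/
theorem pow_zero_of_le {X : Module.End D V} {m k : ℕ} {v : V} (h : (X ^ m) v = 0) (hk : m ≤ k) :
    (X ^ k) v = 0 := by
  obtain ⟨c, rfl⟩ := Nat.exists_eq_add_of_le hk
  rw [add_comm, pow_add, Module.End.mul_apply, h, map_zero]

/-- The triangular system. -/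
theorem tri {X : Module.End D V} {m : ℕ} {v : V} {f : V →ₗ[D] D} (hX : (X ^ m) v = 0)
    (hm : 1 ≤ m) (hv : f ((X ^ (m - 1)) v) ≠ 0) (τ : ℕ → D) (hτ : ∀ j, m ≤ j → τ j = 0) :
    ∃ w ∈ span D (Set.range fun s : ℕ => (X ^ s) v), ∀ j, f ((X ^ j) w) = τ j := by
  have key : ∀ k, k ≤ m → ∃ w ∈ span D (Set.range fun s : ℕ => (X ^ s) v),
      ∀ j, m - k ≤ j → f ((X ^ j) w) = τ j := by
    intro k
    induction k with
    | zero =>
      intro _
      exact ⟨0, Submodule.zero_mem _, fun j hj => by simp [hτ j (by omega)]⟩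
    | succ k ih =>
      intro hk
      obtain ⟨w, hw, hj⟩ := ih (by omega)
      set r := τ (m - (k + 1)) - f ((X ^ (m - (k + 1))) w) with hr
      refine ⟨w + (r * (f ((X ^ (m - 1)) v))⁻¹) • (X ^ k) v,
        Submodule.add_mem _ hw (Submodule.smul_mem _ _ (subset_span ⟨k, rfl⟩)), ?_⟩
      intro j hjj
      rw [map_add, map_add, map_smul, map_smul, ← Module.End.mul_apply, ← pow_add]
      rcases Nat.lt_or_ge j (m - k) with h | h
      · have hj' : j = m - (k + 1) := by omega
        have : j + k = m - 1 := by omega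
        rw [this, hj', smul_eq_mul, mul_assoc, inv_mul_cancel₀ hv, mul_one, hr]
        abel
      · rw [pow_zero_of_le hX (by omega : m ≤ j + k), map_zero, smul_zero, add_zero, hj j h]
  obtain ⟨w, hw, h⟩ := key m le_rfl
  exact ⟨w, hw, fun j => h j (by omega)⟩

end general

/-- Existence of a cyclic decomposition. -/
theorem exists_typ (N : ℕ) : ∀ {V : Type v} [AddCommGroup V] [Module D V] [FiniteDimensional D V]
    (X : Module.End D V), IsNilpotent X → finrank D V ≤ N →
    ∃ (a : Fin N → ℕ) (x : Fin N → V), Typ X a x := by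
  induction N with
  | zero =>
    intro V _ _ _ X _ hN
    have h0 : finrank D V = 0 := by omega
    have hs : Subsingleton V := Module.finrank_zero_iff.mp h0
    refine ⟨Fin.elim0, Fin.elim0, ⟨fun i => i.elim0, fun y _ => ?_, by simp [h0]⟩⟩
    rw [Subsingleton.elim y 0]; exact Submodule.zero_mem _
  | succ N ih =>
    intro V _ _ _ X hX hN
    by_cases h0 : finrank D V = 0
    · have hs : Subsingleton V := Module.finrank_zero_iff.mp h0
      refine ⟨fun _ => 0, fun _ => 0, ⟨fun i => Subsingleton.elim _ _, fun y _ => ?_, by simp [h0]⟩⟩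
      rw [Subsingleton.elim y 0]; exact Submodule.zero_mem _
    classical
    have hnt : Nontrivial V := Module.nontrivial_of_finrank_pos (R := D) (by omega)
    -- nilpotency index
    have hex : ∃ m, X ^ m = 0 := hX
    set m := Nat.find hex with hm
    have hXm : X ^ m = 0 := Nat.find_spec hex
    have hm1 : 1 ≤ m := by
      by_contra h
      have : m = 0 := by omega
      rw [this, pow_zero] at hXm
      exact one_ne_zero hXm
    have hXm' : X ^ (m - 1) ≠ 0 := Nat.find_min hex (by omega)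
    obtain ⟨v, hv⟩ : ∃ v, (X ^ (m - 1)) v ≠ 0 := by
      by_contra h
      push Not at h
      exact hXm' (LinearMap.ext h)
    obtain ⟨f, hf⟩ := exists_functional (D := D) hv
    -- the complement
    let Ψ : V →ₗ[D] (Fin m → D) := LinearMap.pi fun j => f ∘ₗ (X ^ (j : ℕ))
    have hΨ : ∀ y j, Ψ y j = f ((X ^ (j : ℕ)) y) := fun y j => rfl
    have hvm : (X ^ m) v = 0 := by rw [hXm]; rfl
    have hsurj : LinearMap.range Ψ = ⊤ := by
      rw [LinearMap.range_eq_top]
      intro t
      obtain ⟨w, _, hw⟩ := tri hvm hm1 hf (fun j => if h : j < m then t ⟨j, h⟩ else 0)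
        (fun j hj => by simp [not_lt.mpr hj])
      refine ⟨w, ?_⟩
      ext j
      rw [hΨ, hw]
      simp
    set U := LinearMap.ker Ψ with hU
    have hUm : ∀ y, y ∈ U ↔ ∀ j, f ((X ^ j) y) = 0 := by
      intro y
      rw [hU, LinearMap.mem_ker]
      constructor
      · intro h j
        rcases Nat.lt_or_ge j m with hj | hj
        · have := congrFun h ⟨j, hj⟩
          simpa [hΨ] using this
        · have : X ^ j = 0 := by
            obtain ⟨c, rfl⟩ := Nat.exists_eq_add_of_le hj
            rw [pow_add, hXm, zero_mul]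
          rw [this]; simp
      · intro h
        ext j
        rw [hΨ, h]; rfl
    have hdim : finrank D U + m = finrank D V := by
      have := LinearMap.finrank_range_add_finrank_ker Ψ
      rw [hsurj, finrank_top, Module.finrank_fin_fun, ← hU] at this
      omega
    have hXU : ∀ y ∈ U, X y ∈ U := by
      intro y hy
      rw [hUm] at hy ⊢
      intro j
      have := hy (j + 1)
      rwa [pow_succ, Module.End.mul_apply] at this
    set XU : Module.End D U := X.restrict hXU with hXUd
    have hpow : ∀ (k : ℕ) (y : U), (((XU ^ k) y : U) : V) = (X ^ k) (y : V) := by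
      intro k
      induction k with
      | zero => intro y; simp
      | succ k ihk =>
        intro y
        rw [pow_succ, Module.End.mul_apply, ihk, pow_succ, Module.End.mul_apply]
        rfl
    have hXUn : IsNilpotent XU := by
      refine ⟨m, ?_⟩
      ext y
      rw [hpow, hXm]; rfl
    obtain ⟨a', x', ht⟩ := ih XU hXUn (by omega)
    refine ⟨Fin.cons m a', Fin.cons v (fun i => (x' i : V)), ⟨?_, ?_, ?_⟩⟩
    · intro i
      refine Fin.cases ?_ (fun i => ?_) i
      · simpa using hvm
      · simp only [Fin.cons_succ]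
        rw [← hpow, ht.hz]; rfl
    · intro y _
      obtain ⟨w, hw, hwj⟩ := tri hvm hm1 hf (fun j => f ((X ^ j) y))
        (fun j hj => by
          have : X ^ j = 0 := by
            obtain ⟨c, rfl⟩ := Nat.exists_eq_add_of_le hj
            rw [pow_add, hXm, zero_mul]
          rw [this]; simp)
      have h1 : y - w ∈ U := by
        rw [hUm]; intro j; rw [map_sub, map_sub, hwj, sub_self]
      have h2 : w ∈ span D (Set.range fun q : Fin (N + 1) × ℕ =>
          (X ^ q.2) ((Fin.cons v (fun i => (x' i : V)) : Fin (N + 1) → V) q.1)) := by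
        refine (span_mono ?_) hw
        rintro _ ⟨s, rfl⟩
        exact ⟨(0, s), by simp⟩
      have h3 : y - w ∈ span D (Set.range fun q : Fin (N + 1) × ℕ =>
          (X ^ q.2) ((Fin.cons v (fun i => (x' i : V)) : Fin (N + 1) → V) q.1)) := by
        have h4 : (⟨y - w, h1⟩ : U) ∈ span D (Set.range fun q : Fin N × ℕ => (XU ^ q.2) (x' q.1)) :=
          ht.sp mem_top
        have h5 := Submodule.mem_map_of_mem (f := U.subtype) h4
        rw [Submodule.map_span] at h5
        refine (span_mono ?_) h5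
        rintro _ ⟨_, ⟨q, rfl⟩, rfl⟩
        exact ⟨(q.1.succ, q.2), by simp [hpow]⟩
      have := Submodule.add_mem _ h3 h2
      simpa using this
    · rw [Fin.sum_univ_succ]
      simp only [Fin.cons_zero, Fin.cons_succ]
      rw [ht.ct]; omega

section general

set_option linter.unusedSectionVars false

variable {V : Type v} [AddCommGroup V] [Module D V] [FiniteDimensional D V]
variable {N : ℕ} {X : Module.End D V} {a : Fin N → ℕ} {x : Fin N → V}

theorem Typ.basis (h : Typ X a x) : ∃ b : Basis (Σ i : Fin N, Fin (a i)) D V,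
    ∀ q, b q = (X ^ (q.2 : ℕ)) (x q.1) := by
  classical
  have h1 : (⊤ : Submodule D V) ≤ span D (Set.range fun q : (Σ i : Fin N, Fin (a i)) =>
      (X ^ (q.2 : ℕ)) (x q.1)) := by
    refine h.sp.trans (span_le.mpr ?_)
    rintro _ ⟨⟨i, s⟩, rfl⟩
    rcases Nat.lt_or_ge s (a i) with hs | hs
    · exact subset_span ⟨⟨i, ⟨s, hs⟩⟩, rfl⟩
    · simp only
      rw [pow_zero_of_le (h.hz i) hs]
      exact Submodule.zero_mem _
  have h2 : Fintype.card (Σ i : Fin N, Fin (a i)) = finrank D V := by
    rw [Fintype.card_sigma]; simpa using h.ct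
  refine ⟨basisOfTopLeSpanOfCardEqFinrank _ h1 h2, fun q => ?_⟩
  rw [coe_basisOfTopLeSpanOfCardEqFinrank]

theorem Typ.exists_map {V' : Type*} [AddCommGroup V'] [Module D V'] (h : Typ X a x)
    (F : Fin N → ℕ → V') (hF : ∀ i s, a i ≤ s → F i s = 0) :
    ∃ L : V →ₗ[D] V', ∀ i s, L ((X ^ s) (x i)) = F i s := by
  obtain ⟨b, hb⟩ := h.basis
  refine ⟨b.constr ℕ (fun q => F q.1 q.2), fun i s => ?_⟩
  rcases Nat.lt_or_ge s (a i) with hs | hs
  · have := b.constr_basis ℕ (fun q => F q.1 q.2) ⟨i, ⟨s, hs⟩⟩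
    rwa [hb] at this
  · rw [pow_zero_of_le (h.hz i) hs, map_zero, hF i s hs]

theorem Typ.ext {V' : Type*} [AddCommGroup V'] [Module D V'] (h : Typ X a x)
    {L L' : V →ₗ[D] V'} (hL : ∀ i s, L ((X ^ s) (x i)) = L' ((X ^ s) (x i))) : L = L' := by
  refine LinearMap.ext_on_range (v := fun q : Fin N × ℕ => (X ^ q.2) (x q.1))
    (top_le_iff.mp h.sp) (fun q => hL q.1 q.2)

theorem Typ.ne_zero (h : Typ X a x) {i : Fin N} {s : ℕ} (hs : s < a i) : (X ^ s) (x i) ≠ 0 := by
  obtain ⟨b, hb⟩ := h.basis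
  have := b.ne_zero ⟨i, ⟨s, hs⟩⟩
  rwa [hb] at this

theorem Typ.reindex (h : Typ X a x) (σ : Equiv.Perm (Fin N)) : Typ X (a ∘ σ) (x ∘ σ) where
  hz i := h.hz (σ i)
  sp := by
    refine h.sp.trans (span_mono ?_)
    rintro _ ⟨⟨i, s⟩, rfl⟩
    exact ⟨(σ.symm i, s), by simp⟩
  ct := by
    rw [← h.ct]
    exact Equiv.sum_comp σ a

/-- Endomorphisms of the same type are conjugate. -/
theorem Typ.similar {Y : Module.End D V} {y : Fin N → V} (h : Typ X a x) (h' : Typ Y a y) :
    ∃ g g' : Module.End D V, g * g' = 1 ∧ g' * g = 1 ∧ g * X = Y * g := by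
  obtain ⟨g, hg⟩ := h.exists_map (fun i s => (Y ^ s) (y i))
    (fun i s hs => pow_zero_of_le (h'.hz i) hs)
  obtain ⟨g', hg'⟩ := h'.exists_map (fun i s => (X ^ s) (x i))
    (fun i s hs => pow_zero_of_le (h.hz i) hs)
  refine ⟨g, g', h'.ext fun i s => ?_, h.ext fun i s => ?_, h.ext fun i s => ?_⟩
  · rw [Module.End.mul_apply, hg', hg]; rfl
  · rw [Module.End.mul_apply, hg, hg']; rfl
  · rw [Module.End.mul_apply, Module.End.mul_apply, hg, ← Module.End.mul_apply (f := X),
      ← Module.End.mul_apply (f := Y), ← pow_succ', ← pow_succ', hg]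

/-- Ranks of the powers. -/
theorem Typ.finrank_range (h : Typ X a x) (k : ℕ) :
    finrank D (LinearMap.range (X ^ k)) = ∑ i, (a i - k) := by
  classical
  obtain ⟨b, hb⟩ := h.basis
  let J := {q : (Σ i : Fin N, Fin (a i)) // k ≤ (q.2 : ℕ)}
  have h1 : LinearMap.range (X ^ k) = span D (Set.range fun q : J => b q.1) := by
    apply le_antisymm
    · rw [LinearMap.range_eq_map, ← b.span_eq, Submodule.map_span, span_le]
      rintro _ ⟨_, ⟨q, rfl⟩, rfl⟩
      rw [hb, ← Module.End.mul_apply, ← pow_add]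
      rcases Nat.lt_or_ge (k + q.2) (a q.1) with hs | hs
      · refine subset_span ⟨⟨⟨q.1, ⟨k + q.2, hs⟩⟩, Nat.le_add_right _ _⟩, ?_⟩
        simp only [hb]
      · rw [pow_zero_of_le (h.hz q.1) hs]
        exact Submodule.zero_mem _
    · rw [span_le]
      rintro _ ⟨⟨q, hq⟩, rfl⟩
      refine ⟨(X ^ ((q.2 : ℕ) - k)) (x q.1), ?_⟩
      simp only [hb]
      rw [← Module.End.mul_apply, ← pow_add, Nat.add_sub_cancel' hq]
  have h0 := finrank_span_eq_card (R := D) (b := fun q : J => b q.1)
    (b.linearIndependent.comp _ Subtype.val_injective)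
  rw [h1, h0]
  have h2 : Fintype.card J = ∑ i : Fin N, Fintype.card {s : Fin (a i) // k ≤ (s : ℕ)} := by
    rw [← Fintype.card_sigma]
    refine Fintype.card_congr ⟨fun q => ⟨q.1.1, ⟨q.1.2, q.2⟩⟩, fun q => ⟨⟨q.1, q.2.1⟩, q.2.2⟩,
      fun q => rfl, fun q => rfl⟩
  rw [h2]
  refine Finset.sum_congr rfl fun i _ => ?_
  have h3 : Fintype.card {s : Fin (a i) // k ≤ (s : ℕ)} = Fintype.card (Fin (a i - k)) :=
    Fintype.card_congr ⟨fun s => ⟨s.1 - k, by have := s.1.2; have := s.2; omega⟩,
      fun t => ⟨⟨t + k, by have := t.2; omega⟩, by simp⟩,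
      fun s => by
        ext
        simp only
        have := s.2; omega,
      fun t => by ext; simp⟩
  rw [h3, Fintype.card_fin]

end general

end Pool.Agent.H15QR
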