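import Pool.Agent.H15QR.Comb

set_option autoImplicit false
set_option linter.unusedSectionVars false

namespace Pool.Agent.H15QR

open Module Submodule

universe u v

variable {D : Type u} [DivisionRing D]
variable {V : Type v} [AddCommGroup V] [Module D V] [FiniteDimensional D V]

theorem app_pow (A : Module.End D V) (s r : ℕ) (y : V) :
    (A ^ s) ((A ^ r) y) = (A ^ (s + r)) y := by
  rw [pow_add, Module.End.mul_apply]

/-- The rank one endomorphisms commuting with `A`. -/
noncomputable def T (A : Module.End D V) (m : ℕ) (f : V →ₗ[D] D) (w : V) : Module.End D V :=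
  ∑ s ∈ Finset.range m, (f ∘ₗ (A ^ (m - 1 - s))).smulRight ((A ^ s) w)

theorem T_apply (A : Module.End D V) (m : ℕ) (f : V →ₗ[D] D) (w y : V) :
    T A m f w y = ∑ s ∈ Finset.range m, f ((A ^ (m - 1 - s)) y) • (A ^ s) w := by
  simp [T, LinearMap.sum_apply]

theorem T_add (A : Module.End D V) (m : ℕ) (f : V →ₗ[D] D) (w w' : V) :
    T A m f (w + w') = T A m f w + T A m f w' := by
  ext y; simp [T_apply, Finset.sum_add_distrib]

theorem T_zero (A : Module.End D V) (m : ℕ) (f : V →ₗ[D] D) : T A m f 0 = 0 := by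
  ext y; simp [T_apply]

theorem T_comm {A : Module.End D V} {m : ℕ} {f : V →ₗ[D] D} {w : V}
    (hf : ∀ y, f ((A ^ m) y) = 0) (hw : (A ^ m) w = 0) : Commute (T A m f w) A := by
  refine LinearMap.ext fun y => ?_
  rw [Module.End.mul_apply, Module.End.mul_apply, T_apply, T_apply, map_sum]
  rcases m with _ | M
  · simp
  rw [Finset.sum_range_succ', Finset.sum_range_succ]
  have e1 : f ((A ^ (M + 1 - 1 - 0)) (A y)) = 0 := by
    rw [← Module.End.mul_apply, ← pow_succ]; exact hf y
  have e2 : A (f ((A ^ (M + 1 - 1 - M)) y) • (A ^ M) w) = 0 := by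
    rw [map_smul, ← Module.End.mul_apply, ← pow_succ', hw, smul_zero]
  rw [e1, zero_smul, add_zero, e2, add_zero]
  refine Finset.sum_congr rfl fun s hs => ?_
  rw [Finset.mem_range] at hs
  rw [map_smul, ← Module.End.mul_apply (f := A), ← pow_succ', ← Module.End.mul_apply, ← pow_succ]
  have : M + 1 - 1 - (s + 1) + 1 = M + 1 - 1 - s := by omega
  rw [this]

theorem T_mul {A : Module.End D V} {m : ℕ} {f : V →ₗ[D] D} {w : V}
    (hf : ∀ y, f ((A ^ m) y) = 0) (hw : (A ^ m) w = 0) (w' : V) :
    T A m f w * T A m f w' = T A m f (T A m f w w') := by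
  refine LinearMap.ext fun y => ?_
  rw [Module.End.mul_apply, T_apply A m f w' y, map_sum, T_apply A m f _ y]
  refine Finset.sum_congr rfl fun s _ => ?_
  rw [map_smul]
  congr 1
  have h := (T_comm hf hw).pow_right s
  exact LinearMap.congr_fun h.eq w'

theorem T_pow {A : Module.End D V} {m : ℕ} {f : V →ₗ[D] D} {w : V}
    (hf : ∀ y, f ((A ^ m) y) = 0) (hw : (A ^ m) w = 0) (k : ℕ) :
    (T A m f w) ^ (k + 1) = T A m f (((T A m f w) ^ k) w) := by
  induction k with
  | zero => simp
  | succ k ih =>
    have h1 : (T A m f w) ^ (k + 1 + 1) = T A m f w * T A m f (((T A m f w) ^ k) w) := by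
      rw [← ih, ← pow_succ']
    rw [h1, T_mul hf hw, pow_succ' (T A m f w) k, Module.End.mul_apply]

theorem T_nil {A : Module.End D V} {m : ℕ} {f : V →ₗ[D] D} {w : V} (hm : 1 ≤ m)
    (hf : ∀ y, f ((A ^ m) y) = 0) (hw : (A ^ m) w = 0) (hw' : f ((A ^ (m - 1)) w) = 0) :
    (T A m f w) ^ (m + 1) = 0 := by
  have key : ∀ k, ∃ c : ℕ → D, ((T A m f w) ^ k) w = ∑ s ∈ Finset.range m, c s • (A ^ (s + k)) w := by
    intro k
    induction k with
    | zero =>
      refine ⟨fun s => if s = 0 then 1 else 0, ?_⟩
      have h0 : 0 ∈ Finset.range m := by simp; omega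
      rw [Finset.sum_eq_single_of_mem 0 h0 (fun s _ hs => by simp [hs])]
      simp
    | succ k ih =>
      obtain ⟨c, hc⟩ := ih
      rw [pow_succ', Module.End.mul_apply, hc, map_sum]
      -- T w = ∑ s, d s • A^(s+1) w
      have hT : T A m f w w = ∑ s ∈ Finset.range m, f ((A ^ (m - 1 - (s + 1))) w) •
          (A ^ (s + 1)) w := by
        rw [T_apply]
        obtain ⟨M, rfl⟩ : ∃ M, m = M + 1 := ⟨m - 1, by omega⟩
        rw [Finset.sum_range_succ', Finset.sum_range_succ]
        have e1 : f ((A ^ (M + 1 - 1 - 0)) w) = 0 := hw'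
        rw [e1, hw, zero_smul, smul_zero]
      have hmem : ∑ x ∈ Finset.range m, (T A m f w) (c x • (A ^ (x + k)) w) ∈
          span D (Set.range fun s : ℕ => (A ^ (s + (k + 1))) w) := by
        refine Submodule.sum_mem _ fun x _ => ?_
        rw [map_smul]
        refine Submodule.smul_mem _ _ ?_
        have h := (T_comm hf hw).pow_right (x + k)
        have h' : (T A m f w) ((A ^ (x + k)) w) = (A ^ (x + k)) (T A m f w w) :=
          LinearMap.congr_fun h.eq w
        rw [h', hT, map_sum]
        refine Submodule.sum_mem _ fun s _ => ?_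
        rw [map_smul, ← Module.End.mul_apply, ← pow_add]
        refine Submodule.smul_mem _ _ (subset_span ⟨x + s, ?_⟩)
        simp only
        congr 2
        omega
      -- turn membership into a finite sum
      rw [Finsupp.mem_span_range_iff_exists_finsupp] at hmem
      obtain ⟨d, hd⟩ := hmem
      refine ⟨d, ?_⟩
      rw [← hd, Finsupp.sum]
      have h1 : ∑ a ∈ d.support, d a • (A ^ (a + (k + 1))) w =
          ∑ a ∈ d.support ∪ Finset.range m, d a • (A ^ (a + (k + 1))) w := by
        refine Finset.sum_subset Finset.subset_union_left fun s _ hs => ?_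
        rw [Finsupp.notMem_support_iff.mp hs, zero_smul]
      have h2 : ∑ a ∈ Finset.range m, d a • (A ^ (a + (k + 1))) w =
          ∑ a ∈ d.support ∪ Finset.range m, d a • (A ^ (a + (k + 1))) w := by
        refine Finset.sum_subset Finset.subset_union_right fun s _ hs => ?_
        rw [Finset.mem_range, not_lt] at hs
        rw [pow_zero_of_le hw (by omega), smul_zero]
      rw [h1, h2]
  obtain ⟨c, hc⟩ := key m
  rw [T_pow hf hw, hc]
  have : ∑ s ∈ Finset.range m, c s • (A ^ (s + m)) w = 0 := by
    refine Finset.sum_eq_zero fun s _ => ?_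
    rw [pow_zero_of_le hw (by omega), smul_zero]
  rw [this, T_zero]

/-- Making a functional dual to the cyclic subspace of `v`. -/
theorem exists_dual {A : Module.End D V} {m : ℕ} {f₀ : V →ₗ[D] D} {v : V} (hm : 1 ≤ m)
    (hf : ∀ y, f₀ ((A ^ m) y) = 0) (h0 : f₀ ((A ^ (m - 1)) v) ≠ 0) :
    ∃ f : V →ₗ[D] D, (∀ x, (∀ j, f₀ ((A ^ j) x) = 0) → f x = 0) ∧
      (∃ d : D, d ≠ 0 ∧ ∀ x, f ((A ^ (m - 1)) x) = f₀ ((A ^ (m - 1)) x) * d) ∧
      ∀ i, i < m → f ((A ^ i) v) = if i = m - 1 then 1 else 0 := by
  have key : ∀ k, k ≤ m - 1 → ∃ f : V →ₗ[D] D, (∀ x, (∀ j, f₀ ((A ^ j) x) = 0) → f x = 0) ∧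
      (∃ d : D, d ≠ 0 ∧ ∀ x, f ((A ^ (m - 1)) x) = f₀ ((A ^ (m - 1)) x) * d) ∧
      ∀ i, m - 1 - k ≤ i → i < m → f ((A ^ i) v) = if i = m - 1 then 1 else 0 := by
    intro k
    induction k with
    | zero =>
      intro _
      refine ⟨(LinearMap.toSpanSingleton D D (f₀ ((A ^ (m - 1)) v))⁻¹) ∘ₗ f₀, fun x hx => ?_,
        ⟨(f₀ ((A ^ (m - 1)) v))⁻¹, inv_ne_zero h0, fun x => ?_⟩, fun i hi him => ?_⟩
      · have := hx 0
        simp only [pow_zero, Module.End.one_apply] at this
        simp [this]
      · simp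
      · have : i = m - 1 := by omega
        subst this
        simp [h0]
    | succ k ih =>
      intro hk
      obtain ⟨f, h1, ⟨d, hd, h2⟩, h3⟩ := ih (by omega)
      set c := f ((A ^ (m - 1 - (k + 1))) v) with hc
      have hfm : ∀ y, ∀ j, m ≤ j → f ((A ^ j) y) = 0 := by
        intro y j hj
        apply h1
        intro l
        rw [← Module.End.mul_apply, ← pow_add]
        obtain ⟨r, hr⟩ := Nat.exists_eq_add_of_le (by omega : m ≤ l + j)
        rw [hr, pow_add, Module.End.mul_apply]
        exact hf _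
      refine ⟨f - (LinearMap.toSpanSingleton D D c) ∘ₗ (f ∘ₗ (A ^ (k + 1))), fun x hx => ?_,
        ⟨d, hd, fun x => ?_⟩, fun i hi him => ?_⟩
      · have e1 := h1 x hx
        have e2 := h1 ((A ^ (k + 1)) x) (fun j => by
          rw [← Module.End.mul_apply, ← pow_add]; exact hx _)
        simp [e1, e2]
      · have e2 : f ((A ^ (k + 1)) ((A ^ (m - 1)) x)) = 0 := by
          rw [← Module.End.mul_apply, ← pow_add]; exact hfm _ _ (by omega)
        simp [h2, e2]
      · have e0 : (f - (LinearMap.toSpanSingleton D D c) ∘ₗ (f ∘ₗ (A ^ (k + 1)))) ((A ^ i) v) =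
            f ((A ^ i) v) - f ((A ^ (k + 1 + i)) v) * c := by
          simp [pow_add]
        rw [e0]
        rcases Nat.lt_or_ge i (m - 1 - k) with h | h
        · have hi' : i = m - 1 - (k + 1) := by omega
          have e1 : k + 1 + i = m - 1 := by omega
          rw [e1, h3 (m - 1) (by omega) (by omega), if_pos rfl, one_mul, if_neg (by omega), hi',
            ← hc, sub_self]
        · rw [h3 i h him, hfm v _ (by omega), zero_mul, sub_zero]
  obtain ⟨f, h1, h2, h3⟩ := key (m - 1) le_rfl
  exact ⟨f, h1, h2, fun i hi => h3 i (by omega) hi⟩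

theorem T_dual {A : Module.End D V} {m : ℕ} {f : V →ₗ[D] D} {v : V} (hm : 1 ≤ m)
    (hd : ∀ i, i < m → f ((A ^ i) v) = if i = m - 1 then 1 else 0) (w : V) :
    T A m f w v = w := by
  rw [T_apply]
  have h0 : 0 ∈ Finset.range m := by simp; omega
  rw [Finset.sum_eq_single_of_mem 0 h0]
  · rw [hd _ (by omega), if_pos (by omega), one_smul]; rfl
  · intro s hs hs0
    rw [Finset.mem_range] at hs
    rw [hd _ (by omega), if_neg (by omega), zero_smul]

/-- The elimination: every automorphism commuting with `A` is a product of elementary ones. -/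
theorem elimination {N : ℕ} {A : Module.End D V} {a : Fin N → ℕ} {z : Fin N → V}
    (hA : Typ A a z) (J : Module.End D V → Prop) (J1 : J 1)
    (Jmul : ∀ g g', J g → J g' → J (g * g'))
    (Jinv : ∀ g, J g → ∃ g', g * g' = 1 ∧ g' * g = 1)
    (Ju : ∀ (m : ℕ) (f : V →ₗ[D] D) (w : V), 1 ≤ m → (∀ y, f ((A ^ m) y) = 0) → (A ^ m) w = 0 →
      f ((A ^ (m - 1)) w) = 0 → J (1 + T A m f w))
    (Js : ∀ (m : ℕ) (f : V →ₗ[D] D) (v : V) (c : D), 1 ≤ m → (∀ y, f ((A ^ m) y) = 0) →
      (A ^ m) v = 0 → (∀ i, i < m → f ((A ^ i) v) = if i = m - 1 then 1 else 0) → c ≠ 0 →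
      J (1 + T A m f ((c - 1) • v))) :
    ∀ (k : ℕ) (S : Finset (Fin N)), Sᶜ.card = k → ∀ g g' : Module.End D V, g * g' = 1 →
      g' * g = 1 → Commute g A → (∀ i ∈ S, g (z i) = z i) → J g := by
  classical
  intro k
  induction k with
  | zero =>
    intro S hS g g' _ _ hc hfix
    have : S = Finset.univ := by simpa using hS
    have hg : g = 1 := by
      refine hA.ext fun i s => ?_
      have h := (hc.pow_right s).eq
      have h' : g ((A ^ s) (z i)) = (A ^ s) (g (z i)) := LinearMap.congr_fun h (z i)
      rw [h', hfix i (by rw [this]; simp)]; rfl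
    rw [hg]; exact J1
  | succ k ih =>
    intro S hS g g' hgg' hg'g hc hfix
    have hne : Sᶜ.Nonempty := by
      rw [← Finset.card_pos, hS]; omega
    obtain ⟨j, hj, hjmax⟩ := Finset.exists_max_image Sᶜ a hne
    have hjS : j ∉ S := by simpa using hj
    have hcard : (insert j S)ᶜ.card = k := by
      rw [Finset.card_compl, Finset.card_insert_of_notMem hjS]
      rw [Finset.card_compl] at hS
      omega
    have hcomm : ∀ s y, g ((A ^ s) y) = (A ^ s) (g y) := fun s y =>
      LinearMap.congr_fun (hc.pow_right s).eq y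
    have hc' : Commute g' A := by
      have : g' * A = g' * A * (g * g') := by rw [hgg', mul_one]
      have h2 : g' * A * (g * g') = g' * (A * g) * g' := by noncomm_ring
      rw [Commute, SemiconjBy, this, h2, ← hc.eq]
      calc g' * (g * A) * g' = (g' * g) * A * g' := by noncomm_ring
        _ = A * g' := by rw [hg'g, one_mul]
    have hcomm' : ∀ s y, g' ((A ^ s) y) = (A ^ s) (g' y) := fun s y =>
      LinearMap.congr_fun (hc'.pow_right s).eq y
    set m := a j with hm
    rcases Nat.eq_zero_or_pos m with h0 | hmpos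
    · have hz0 : z j = 0 := by
        have := hA.hz j
        rw [← hm, h0] at this
        simpa using this
      refine ih (insert j S) hcard g g' hgg' hg'g hc ?_
      intro i hi
      rw [Finset.mem_insert] at hi
      rcases hi with rfl | hi
      · rw [hz0, map_zero]
      · exact hfix i hi
    -- the projection killing the blocks in S
    obtain ⟨P, hP⟩ := hA.exists_map (fun i s => if i ∈ S then 0 else (A ^ s) (z i))
      (fun i s hs => by
        split_ifs
        · rfl
        · exact pow_zero_of_le (hA.hz i) hs)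
    have hPc : ∀ s y, P ((A ^ s) y) = (A ^ s) (P y) := by
      intro s y
      have : P ∘ₗ (A ^ s) = (A ^ s) ∘ₗ P := by
        refine hA.ext fun i r => ?_
        rw [LinearMap.comp_apply, LinearMap.comp_apply, app_pow, hP, hP]
        split_ifs
        · rw [map_zero]
        · rw [app_pow]
      exact LinearMap.congr_fun this y
    have hPz : ∀ i ∈ S, P (z i) = 0 := by
      intro i hi
      have := hP i 0
      simpa [hi] using this
    have hPj : P (z j) = z j := by
      have := hP j 0
      simpa [hjS] using this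
    have hPm : ∀ y, P ((A ^ m) y) = 0 := by
      intro y
      have : P ∘ₗ (A ^ m) = 0 := by
        refine hA.ext fun i r => ?_
        rw [LinearMap.comp_apply, app_pow, hP]
        split_ifs with hi
        · rfl
        · have hle : a i ≤ m := hjmax i (by simpa using hi)
          rw [pow_zero_of_le (hA.hz i) (by omega)]; rfl
      exact LinearMap.congr_fun this y
    set WS := span D (Set.range fun q : S × ℕ => (A ^ q.2) (z q.1)) with hWS
    have hyP : ∀ y, y - P y ∈ WS := by
      intro y
      have hy : y ∈ span D (Set.range fun q : Fin N × ℕ => (A ^ q.2) (z q.1)) := hA.sp mem_top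
      induction hy using Submodule.span_induction with
      | mem y hy =>
        obtain ⟨⟨i, s⟩, rfl⟩ := hy
        simp only
        rw [hP]
        split_ifs with hi
        · rw [sub_zero]; exact subset_span ⟨(⟨i, hi⟩, s), rfl⟩
        · rw [sub_self]; exact WS.zero_mem
      | zero => simp
      | add y y' _ _ h h' =>
        rw [map_add, add_sub_add_comm]; exact WS.add_mem h h'
      | smul c y _ h => rw [map_smul, ← smul_sub]; exact WS.smul_mem _ h
    have hg'z : ∀ i ∈ S, g' (z i) = z i := by
      intro i hi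
      conv_lhs => rw [← hfix i hi]
      rw [← Module.End.mul_apply, hg'g]; rfl
    have hg'W : ∀ y ∈ WS, g' y = y := by
      intro y hy
      induction hy using Submodule.span_induction with
      | mem y hy =>
        obtain ⟨⟨i, s⟩, rfl⟩ := hy
        simp only
        rw [hcomm', hg'z i i.2]
      | zero => simp
      | add y y' _ _ h h' => rw [map_add, h, h']
      | smul c y _ h => rw [map_smul, h]
    set u := g (z j) with hu
    have hAj : (A ^ (m - 1)) (z j) ≠ 0 := hA.ne_zero (by omega)
    have hAm : (A ^ m) (z j) = 0 := hA.hz j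
    have hum : (A ^ m) u = 0 := by rw [hu, ← hcomm, hAm, map_zero]
    have hPu : P ((A ^ (m - 1)) u) ≠ 0 := by
      intro h
      have h1 := hyP ((A ^ (m - 1)) u)
      rw [h, sub_zero] at h1
      have h2 := hg'W _ h1
      rw [hu, ← hcomm, ← Module.End.mul_apply, hg'g, Module.End.one_apply] at h2
      have h3 : P ((A ^ (m - 1)) (z j)) = 0 := by rw [h2, hcomm, ← hu, h]
      rw [hPc, hPj] at h3
      exact hAj h3
    obtain ⟨f₁, hf1, hf2⟩ := exists_functional₂ (D := D) hAj hPu
    have hf₀m : ∀ y, (f₁ ∘ₗ P) ((A ^ m) y) = 0 := fun y => by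
      rw [LinearMap.comp_apply, hPm, map_zero]
    have hf₀v : (f₁ ∘ₗ P) ((A ^ (m - 1)) (z j)) ≠ 0 := by
      rw [LinearMap.comp_apply, hPc, hPj]; exact hf1
    obtain ⟨f, hfa, ⟨d, hd, hfb⟩, hfc⟩ := exists_dual hmpos hf₀m hf₀v
    have hfm : ∀ y, f ((A ^ m) y) = 0 := by
      intro y
      apply hfa
      intro l
      rw [← Module.End.mul_apply, ← pow_add, add_comm, pow_add, Module.End.mul_apply]
      exact hf₀m _
    have hfS : ∀ i ∈ S, ∀ s, f ((A ^ s) (z i)) = 0 := by
      intro i hi s
      apply hfa
      intro l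
      rw [LinearMap.comp_apply, hPc, hPc, hPz i hi, map_zero, map_zero, map_zero]
    set c := f ((A ^ (m - 1)) u) with hcd
    have hc0 : c ≠ 0 := by
      rw [hcd, hfb]
      exact mul_ne_zero hf2 hd
    -- the two factors
    set y' := u - c • z j with hy'
    have hy'm : (A ^ m) y' = 0 := by rw [hy', map_sub, map_smul, hum, hAm, smul_zero, sub_zero]
    have hfy' : f ((A ^ (m - 1)) y') = 0 := by
      rw [hy', map_sub, map_sub, map_smul, map_smul, hfc _ (by omega), if_pos rfl, ← hcd,
        smul_eq_mul, mul_one, sub_self]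
    set w := c⁻¹ • y' with hw
    have hwm : (A ^ m) w = 0 := by rw [hw, map_smul, hy'm, smul_zero]
    have hfw : f ((A ^ (m - 1)) w) = 0 := by rw [hw, map_smul, map_smul, hfy', smul_zero]
    have hJ1 := Ju m f w hmpos hfm hwm hfw
    have hJ2 := Js m f (z j) c hmpos hfm hAm hfc hc0
    have hJh := Jmul _ _ hJ1 hJ2
    set h := (1 + T A m f w) * (1 + T A m f ((c - 1) • z j)) with hh
    have hh' : h = 1 + T A m f (u - z j) := by
      have e1 : T A m f w * T A m f ((c - 1) • z j) = T A m f ((c - 1) • w) := by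
        rw [T_mul hfm hwm, map_smul, T_dual hmpos hfc]
      have e2 : w + (c - 1) • z j + (c - 1) • w = u - z j := by
        have : w + (c - 1) • w = c • w := by rw [sub_smul, one_smul]; abel
        rw [add_right_comm, this, hw, smul_smul, mul_inv_cancel₀ hc0, one_smul, hy', sub_smul,
          one_smul]
        abel
      have e3 : h = 1 + (T A m f w + T A m f ((c - 1) • z j) +
          T A m f w * T A m f ((c - 1) • z j)) := by
        rw [hh]; noncomm_ring
      rw [e3, e1, ← T_add, ← T_add, e2]
    have hhv : h (z j) = u := by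
      rw [hh', LinearMap.add_apply, T_dual hmpos hfc]
      simp
    have hhS : ∀ i ∈ S, h (z i) = z i := by
      intro i hi
      rw [hh', LinearMap.add_apply, T_apply]
      have : ∑ s ∈ Finset.range m, f ((A ^ (m - 1 - s)) (z i)) • (A ^ s) (u - z j) = 0 :=
        Finset.sum_eq_zero fun s _ => by rw [hfS i hi, zero_smul]
      rw [this]; simp
    have hhc : Commute h A := by
      rw [hh']
      refine (Commute.one_left A).add_left (T_comm hfm ?_)
      rw [map_sub, hum, hAm, sub_zero]
    obtain ⟨h', hhh', hh'h⟩ := Jinv h hJh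
    have hhc' : Commute h' A := by
      have : h' * A = h' * A * (h * h') := by rw [hhh', mul_one]
      have h2 : h' * A * (h * h') = h' * (A * h) * h' := by noncomm_ring
      rw [Commute, SemiconjBy, this, h2, ← hhc.eq]
      calc h' * (h * A) * h' = (h' * h) * A * h' := by noncomm_ring
        _ = A * h' := by rw [hh'h, one_mul]
    have hfin : J (h' * g) := by
      refine ih (insert j S) hcard (h' * g) (g' * h) ?_ ?_ (hhc'.mul_left hc) ?_
      · calc h' * g * (g' * h) = h' * (g * g') * h := by noncomm_ring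
          _ = 1 := by rw [hgg', mul_one, hh'h]
      · calc g' * h * (h' * g) = g' * (h * h') * g := by noncomm_ring
          _ = 1 := by rw [hhh', mul_one, hg'g]
      · intro i hi
        rw [Finset.mem_insert] at hi
        rw [Module.End.mul_apply]
        rcases hi with rfl | hi
        · rw [← hu, ← hhv, ← Module.End.mul_apply, hh'h]; rfl
        · rw [hfix i hi]
          conv_lhs => rw [← hhS i hi]
          rw [← Module.End.mul_apply, hh'h]; rfl
    have : g = h * (h' * g) := by rw [← mul_assoc, hhh', one_mul]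
    rw [this]
    exact Jmul _ _ hJh hfin

end Pool.Agent.H15QR
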