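import Pool.Agent.H15QR.Move

set_option autoImplicit false

namespace Pool.Agent.H15QR

variable {N : ℕ}

theorem layer {p : ℕ} {a : Fin N → ℕ} (h : Canonical p a) (hp : 0 < p) (k : ℕ) :
    ∃ r < p, ∑ i, min (a i - p * k) p =
        p * (Finset.univ.filter fun i => p * (k + 1) ≤ a i).card + r ∧
      ∀ t, 1 ≤ t → t ≤ p → (Finset.univ.filter fun i => p * k + t ≤ a i).card =
        (Finset.univ.filter fun i => p * (k + 1) ≤ a i).card + if t ≤ r then 1 else 0 := by
  classical
  have hpk : p * (k + 1) = p * k + p := by ring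
  set S := Finset.univ.filter fun i => p * k < a i ∧ a i < p * (k + 1) with hS
  have hS1 : S.card ≤ 1 := by
    rw [Finset.card_le_one]
    intro i hi j hj
    simp only [hS, Finset.mem_filter, Finset.mem_univ, true_and] at hi hj
    by_contra hne
    rcases le_total (a j) (a i) with h1 | h1
    · exact h i j hne k hj.1 h1 hi.2
    · exact h j i (Ne.symm hne) k hi.1 h1 hj.2
  have e1 : ∑ i, min (a i - p * k) p =
      p * (Finset.univ.filter fun i => p * (k + 1) ≤ a i).card + ∑ i ∈ S, (a i - p * k) := by
    rw [Finset.card_filter, Finset.mul_sum, hS, Finset.sum_filter, ← Finset.sum_add_distrib]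
    refine Finset.sum_congr rfl fun i _ => ?_
    split_ifs with h1 h2 h2
    · omega
    · rw [min_eq_right (by omega)]; ring
    · rw [min_eq_left (by omega)]; ring
    · rw [not_and_or] at h2
      rcases h2 with h2 | h2
      · have : a i - p * k = 0 := by omega
        rw [this]; simp
      · omega
  have e2 : ∀ t, 1 ≤ t → t ≤ p → (Finset.univ.filter fun i => p * k + t ≤ a i).card =
      (Finset.univ.filter fun i => p * (k + 1) ≤ a i).card +
        (S.filter fun i => t ≤ a i - p * k).card := by
    intro t ht1 ht2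
    rw [Finset.card_filter, Finset.card_filter, Finset.card_filter, hS, Finset.sum_filter,
      ← Finset.sum_add_distrib]
    refine Finset.sum_congr rfl fun i _ => ?_
    split_ifs <;> omega
  rcases Nat.le_one_iff_eq_zero_or_eq_one.mp hS1 with h0 | h0
  · rw [Finset.card_eq_zero] at h0
    refine ⟨0, hp, by rw [e1, h0]; simp, fun t h1 h2 => ?_⟩
    rw [e2 t h1 h2, h0, if_neg (by omega)]; simp
  · obtain ⟨i0, h0⟩ := Finset.card_eq_one.mp h0
    have hi : i0 ∈ S := by rw [h0]; simp
    simp only [hS, Finset.mem_filter, Finset.mem_univ, true_and] at hi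
    refine ⟨a i0 - p * k, by omega, by rw [e1, h0]; simp, fun t h1 h2 => ?_⟩
    rw [e2 t h1 h2, h0, Finset.filter_singleton]
    split_ifs <;> simp

theorem canonical_unique {p : ℕ} (hp : 0 < p) {a b : Fin N → ℕ} (ha : Canonical p a)
    (hb : Canonical p b) (h : ∀ k, ∑ i, (a i - p * k) = ∑ i, (b i - p * k)) :
    ∃ σ : Equiv.Perm (Fin N), a = b ∘ σ := by
  classical
  have hmin : ∀ k, ∑ i, min (a i - p * k) p = ∑ i, min (b i - p * k) p := by
    intro k
    have e : ∀ c : Fin N → ℕ, ∑ i, (c i - p * k) =
        ∑ i, min (c i - p * k) p + ∑ i, (c i - p * (k + 1)) := by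
      intro c
      rw [← Finset.sum_add_distrib]
      refine Finset.sum_congr rfl fun i _ => ?_
      have hpk : p * (k + 1) = p * k + p := by ring
      rw [hpk]
      rcases le_total (c i - p * k) p with h1 | h1
      · rw [min_eq_left h1]; omega
      · rw [min_eq_right h1]; omega
    have h1 := h k
    have h2 := h (k + 1)
    rw [e a, e b] at h1
    omega
  have hcount : ∀ s, (Finset.univ.filter fun i => s ≤ a i).card =
      (Finset.univ.filter fun i => s ≤ b i).card := by
    intro s
    rcases Nat.eq_zero_or_pos s with h0 | h0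
    · subst h0; simp
    obtain ⟨r, hr, e1, e2⟩ := layer ha hp ((s - 1) / p)
    obtain ⟨r', hr', e1', e2'⟩ := layer hb hp ((s - 1) / p)
    have e3 := hmin ((s - 1) / p)
    rw [e1, e1'] at e3
    have h4 := congrArg (· % p) e3
    simp only [Nat.mul_add_mod, Nat.mod_eq_of_lt hr, Nat.mod_eq_of_lt hr'] at h4
    subst h4
    have h5 := Nat.eq_of_mul_eq_mul_left hp (Nat.add_right_cancel e3)
    have hs : s = p * ((s - 1) / p) + ((s - 1) % p + 1) := by
      have := Nat.div_add_mod (s - 1) p
      omega
    have hm := Nat.mod_lt (s - 1) hp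
    have h6 := e2 ((s - 1) % p + 1) (by omega) (by omega)
    have h7 := e2' ((s - 1) % p + 1) (by omega) (by omega)
    rw [← hs] at h6 h7
    rw [h6, h7, h5]
  have hfib : ∀ s, Fintype.card {i // a i = s} = Fintype.card {i // b i = s} := by
    intro s
    have e : ∀ c : Fin N → ℕ, Fintype.card {i // c i = s} +
        (Finset.univ.filter fun i => s + 1 ≤ c i).card =
        (Finset.univ.filter fun i => s ≤ c i).card := by
      intro c
      rw [Fintype.card_subtype, Finset.card_filter, Finset.card_filter, Finset.card_filter,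
        ← Finset.sum_add_distrib]
      refine Finset.sum_congr rfl fun i _ => ?_
      split_ifs <;> omega
    have h1 := e a
    have h2 := e b
    rw [hcount] at h1
    rw [hcount s] at h1
    omega
  let σ := Equiv.ofFiberEquiv (f := a) (g := b) (fun s => Fintype.equivOfCardEq (hfib s))
  refine ⟨σ, ?_⟩
  ext i
  exact (Equiv.ofFiberEquiv_map _ i).symm

end Pool.Agent.H15QR
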