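import Pool.Agent.H15QR.Cent

set_option autoImplicit false
set_option linter.unusedSectionVars false

namespace Pool.Agent.H15QR

open Module Submodule Quaternion

/-- The space of row vectors. -/
abbrev HV (n : ℕ) := Fin n → ℍ[ℝ]

/-- Strong continuity of a family of endomorphisms. -/
def SCont {n : ℕ} (γ : unitInterval → Module.End ℍ[ℝ] (HV n)) : Prop :=
  ∀ x, Continuous fun t => γ t x

theorem SCont.mul {n : ℕ} {γ δ : unitInterval → Module.End ℍ[ℝ] (HV n)} (h : SCont γ)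
    (h' : SCont δ) : SCont fun t => γ t * δ t := by
  classical
  intro x
  have : (fun t => (γ t * δ t) x) = fun t => ∑ i, (δ t x) i • γ t (fun j => if i = j then 1 else 0) := by
    funext t
    rw [Module.End.mul_apply, LinearMap.pi_apply_eq_sum_univ (γ t)]
  rw [this]
  refine continuous_finsetSum _ fun i _ => ?_
  exact ((continuous_apply i).comp (h' x)).smul (h _)

theorem SCont.const {n : ℕ} (g : Module.End ℍ[ℝ] (HV n)) : SCont fun _ => g :=
  fun _ => continuous_const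

/-- `g` is joined to `1` inside the automorphisms commuting with `A`. -/
def J {n : ℕ} (A g : Module.End ℍ[ℝ] (HV n)) : Prop :=
  ∃ γ δ : unitInterval → Module.End ℍ[ℝ] (HV n), SCont γ ∧ SCont δ ∧
    (∀ t, γ t * δ t = 1 ∧ δ t * γ t = 1 ∧ Commute (γ t) A) ∧ γ 0 = 1 ∧ γ 1 = g

variable {n : ℕ} {A : Module.End ℍ[ℝ] (HV n)}

theorem J_one : J A 1 :=
  ⟨fun _ => 1, fun _ => 1, SCont.const 1, SCont.const 1,
    fun _ => ⟨one_mul 1, one_mul 1, Commute.one_left A⟩, rfl, rfl⟩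

theorem J_mul (g g' : Module.End ℍ[ℝ] (HV n)) (h : J A g) (h' : J A g') : J A (g * g') := by
  obtain ⟨γ, δ, c1, c2, hh, h0, h1⟩ := h
  obtain ⟨γ', δ', c1', c2', hh', h0', h1'⟩ := h'
  refine ⟨fun t => γ t * γ' t, fun t => δ' t * δ t, c1.mul c1', c2'.mul c2, fun t => ⟨?_, ?_, ?_⟩,
    by simp [h0, h0'], by simp [h1, h1']⟩
  · calc γ t * γ' t * (δ' t * δ t) = γ t * (γ' t * δ' t) * δ t := by noncomm_ring
      _ = 1 := by rw [(hh' t).1, mul_one, (hh t).1]
  · calc δ' t * δ t * (γ t * γ' t) = δ' t * (δ t * γ t) * γ' t := by noncomm_ring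
      _ = 1 := by rw [(hh t).2.1, mul_one, (hh' t).2.1]
  · exact (hh t).2.2.mul_left (hh' t).2.2

theorem J_inv (g : Module.End ℍ[ℝ] (HV n)) (h : J A g) : ∃ g', g * g' = 1 ∧ g' * g = 1 := by
  obtain ⟨γ, δ, _, _, hh, _, h1⟩ := h
  exact ⟨δ 1, by rw [← h1]; exact (hh 1).1, by rw [← h1]; exact (hh 1).2.1⟩

theorem J_uni (m : ℕ) (f : HV n →ₗ[ℍ[ℝ]] ℍ[ℝ]) (w : HV n) (hm : 1 ≤ m)
    (hf : ∀ y, f ((A ^ m) y) = 0) (hw : (A ^ m) w = 0) (hfw : f ((A ^ (m - 1)) w) = 0) :
    J A (1 + T A m f w) := by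
  set B := T A m f w with hB
  have hBn : B ^ (m + 1) = 0 := T_nil hm hf hw hfw
  have hBc : Commute B A := T_comm hf hw
  refine ⟨fun t => 1 + (t : ℝ) • B, fun t => ∑ k ∈ Finset.range (m + 1), (-(t : ℝ)) ^ k • B ^ k,
    fun x => ?_, fun x => ?_, fun t => ?_, by simp, by simp⟩
  · simp only [LinearMap.add_apply, LinearMap.smul_apply]
    exact continuous_const.add (continuous_subtype_val.smul continuous_const)
  · simp only [LinearMap.sum_apply, LinearMap.smul_apply]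
    exact continuous_finsetSum _ fun k _ =>
      (continuous_subtype_val.neg.pow k).smul continuous_const
  · have e1 : (1 : Module.End ℍ[ℝ] (HV n)) + (t : ℝ) • B = 1 - (-(t : ℝ)) • B := by
      refine LinearMap.ext fun x => ?_
      simp
    have e2 : ∑ k ∈ Finset.range (m + 1), (-(t : ℝ)) ^ k • B ^ k =
        ∑ k ∈ Finset.range (m + 1), ((-(t : ℝ)) • B) ^ k :=
      Finset.sum_congr rfl fun k _ => (smul_pow _ _ _).symm
    have e3 : ((-(t : ℝ)) • B) ^ (m + 1) = 0 := by rw [smul_pow, hBn, smul_zero]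
    refine ⟨?_, ?_, (Commute.one_left A).add_left (hBc.smul_left _)⟩
    · simp only
      rw [e1, e2, mul_neg_geom_sum, e3, sub_zero]
    · simp only
      rw [e1, e2, geom_sum_mul_neg, e3, sub_zero]

theorem scal_mul {m : ℕ} {f : HV n →ₗ[ℍ[ℝ]] ℍ[ℝ]} {v : HV n} (hm : 1 ≤ m)
    (hf : ∀ y, f ((A ^ m) y) = 0) (hv : (A ^ m) v = 0)
    (hd : ∀ i, i < m → f ((A ^ i) v) = if i = m - 1 then 1 else 0) (a b : ℍ[ℝ]) :
    (1 + T A m f ((a - 1) • v)) * (1 + T A m f ((b - 1) • v)) = 1 + T A m f ((b * a - 1) • v) := by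
  have hv' : ∀ c : ℍ[ℝ], (A ^ m) (c • v) = 0 := fun c => by rw [map_smul, hv, smul_zero]
  have e1 : T A m f ((a - 1) • v) * T A m f ((b - 1) • v) = T A m f ((b - 1) • (a - 1) • v) := by
    rw [T_mul hf (hv' _), map_smul, T_dual hm hd]
  have e2 : (1 + T A m f ((a - 1) • v)) * (1 + T A m f ((b - 1) • v)) =
      1 + (T A m f ((a - 1) • v) + T A m f ((b - 1) • v) +
        T A m f ((a - 1) • v) * T A m f ((b - 1) • v)) := by noncomm_ring
  rw [e2, e1, ← T_add, ← T_add, smul_smul, ← add_smul, ← add_smul]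
  congr 3
  noncomm_ring

theorem J_scal (m : ℕ) (f : HV n →ₗ[ℍ[ℝ]] ℍ[ℝ]) (v : HV n) (c : ℍ[ℝ]) (hm : 1 ≤ m)
    (hf : ∀ y, f ((A ^ m) y) = 0) (hv : (A ^ m) v = 0)
    (hd : ∀ i, i < m → f ((A ^ i) v) = if i = m - 1 then 1 else 0) (hc : c ≠ 0) :
    J A (1 + T A m f ((c - 1) • v)) := by
  have hrank : 1 < Module.rank ℝ ℍ[ℝ] := by
    rw [Quaternion.rank_eq_four]; norm_num
  have hj : JoinedIn ({(0 : ℍ[ℝ])}ᶜ) 1 c :=
    (isPathConnected_compl_singleton_of_one_lt_rank hrank 0).joinedIn 1 (by simp) c (by simpa using hc)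
  obtain ⟨q, hq⟩ := hj
  have hq0 : ∀ t, q t ≠ 0 := fun t => by simpa using hq t
  have hcont : ∀ r : unitInterval → ℍ[ℝ], Continuous r → SCont fun t => 1 + T A m f ((r t - 1) • v) := by
    intro r hr x
    simp only [LinearMap.add_apply, T_apply, map_smul]
    refine continuous_const.add (continuous_finsetSum _ fun s _ => ?_)
    exact (continuous_const (y := f ((A ^ (m - 1 - s)) x))).smul
      ((hr.sub continuous_const).smul (continuous_const (y := (A ^ s) v)))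
  refine ⟨fun t => 1 + T A m f ((q t - 1) • v), fun t => 1 + T A m f (((q t)⁻¹ - 1) • v),
    hcont _ q.continuous, hcont _ (q.continuous.inv₀ hq0), fun t => ⟨?_, ?_, ?_⟩, ?_, ?_⟩
  · simp only
    rw [scal_mul hm hf hv hd, inv_mul_cancel₀ (hq0 t), sub_self, zero_smul, T_zero, add_zero]
  · simp only
    rw [scal_mul hm hf hv hd, mul_inv_cancel₀ (hq0 t), sub_self, zero_smul, T_zero, add_zero]
  · exact (Commute.one_left A).add_left (T_comm hf (by rw [map_smul, hv, smul_zero]))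
  · simp [T_zero]
  · simp

/-- The automorphisms commuting with a nilpotent `A` form a path-connected set. -/
theorem J_all (hA : IsNilpotent A) (g g' : Module.End ℍ[ℝ] (HV n)) (h1 : g * g' = 1)
    (h2 : g' * g = 1) (hc : Commute g A) : J A g := by
  obtain ⟨a, z, ht⟩ := exists_typ (D := ℍ[ℝ]) (V := HV n) n A hA (by simp)
  exact elimination ht (J A) J_one J_mul J_inv J_uni J_scal _ ∅ rfl g g' h1 h2 hc (by simp)

/-- The endomorphism of row vectors given by a matrix. -/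
noncomputable def lin (M : Matrix (Fin n) (Fin n) ℍ[ℝ]) : Module.End ℍ[ℝ] (HV n) :=
  M.vecMulLinear

theorem lin_apply (M : Matrix (Fin n) (Fin n) ℍ[ℝ]) (x : HV n) : lin M x = Matrix.vecMul x M := rfl

/-- The matrix of an endomorphism of row vectors. -/
noncomputable def mat (g : Module.End ℍ[ℝ] (HV n)) : Matrix (Fin n) (Fin n) ℍ[ℝ] :=
  Matrix.of fun i j => g (fun l => if i = l then 1 else 0) j

theorem lin_mat (g : Module.End ℍ[ℝ] (HV n)) : lin (mat g) = g := by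
  refine LinearMap.ext fun x => ?_
  rw [lin_apply, LinearMap.pi_apply_eq_sum_univ g x]
  ext j : 1
  simp [Matrix.vecMul, dotProduct, mat, Finset.sum_apply]

theorem mat_lin (M : Matrix (Fin n) (Fin n) ℍ[ℝ]) : mat (lin M) = M := by
  ext1 i j
  simp only [mat, Matrix.of_apply, lin_apply, Matrix.vecMul, dotProduct]
  simp

theorem lin_mul (M M' : Matrix (Fin n) (Fin n) ℍ[ℝ]) : lin (M * M') = lin M' * lin M := by
  refine LinearMap.ext fun x => ?_
  rw [Module.End.mul_apply, lin_apply, lin_apply, lin_apply, Matrix.vecMul_vecMul]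

theorem lin_pow (M : Matrix (Fin n) (Fin n) ℍ[ℝ]) (k : ℕ) : lin (M ^ k) = lin M ^ k := by
  induction k with
  | zero =>
    refine LinearMap.ext fun x => ?_
    rw [lin_apply]; simp
  | succ k ih => rw [pow_succ, lin_mul, ih, pow_succ']

/-- The roots. -/
def roots (p : ℕ) (M : Matrix (Fin n) (Fin n) ℍ[ℝ]) : Set (Matrix (Fin n) (Fin n) ℍ[ℝ]) :=
  {X | X ^ p = M}

theorem joined_of_path {p : ℕ} {M : Matrix (Fin n) (Fin n) ℍ[ℝ]}
    (γ : unitInterval → Module.End ℍ[ℝ] (HV n)) (hγ : SCont γ) (h : ∀ t, (γ t) ^ p = lin M) :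
    JoinedIn {X : Matrix (Fin n) (Fin n) ℍ[ℝ] | X ^ p = M} (mat (γ 0)) (mat (γ 1)) := by
  refine ⟨⟨⟨fun t => mat (γ t), ?_⟩, rfl, rfl⟩, fun t => ?_⟩
  · refine continuous_matrix fun i j => ?_
    exact (continuous_apply j).comp (hγ _)
  · change mat (γ t) ^ p = M
    rw [← mat_lin (mat (γ t) ^ p), lin_pow, lin_mat, h, mat_lin]

theorem conj_pow' {g g' X : Module.End ℍ[ℝ] (HV n)} (h : g' * g = 1) (h' : g * g' = 1) (k : ℕ) :
    (g * X * g') ^ k = g * X ^ k * g' := by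
  induction k with
  | zero => simp [h']
  | succ k ih =>
    rw [pow_succ, ih, pow_succ]
    calc g * X ^ k * g' * (g * X * g') = g * X ^ k * (g' * g) * X * g' := by noncomm_ring
      _ = g * (X ^ k * X) * g' := by rw [h]; noncomm_ring

theorem joined_of_similar {p : ℕ} {M : Matrix (Fin n) (Fin n) ℍ[ℝ]} (hM : IsNilpotent (lin M))
    {X Y : Module.End ℍ[ℝ] (HV n)} (hX : X ^ p = lin M) (hY : Y ^ p = lin M) {N : ℕ}
    {a : Fin N → ℕ} {x y : Fin N → HV n} (h : Typ X a x) (h' : Typ Y a y) :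
    JoinedIn {X : Matrix (Fin n) (Fin n) ℍ[ℝ] | X ^ p = M} (mat X) (mat Y) := by
  obtain ⟨g, g', h1, h2, h3⟩ := h.similar h'
  have hc : Commute g (lin M) := by
    have := SemiconjBy.pow_right (a := g) (x := X) (y := Y) h3 p
    rw [hX, hY] at this
    exact this
  obtain ⟨γ, δ, c1, c2, hh, h0, h1'⟩ := J_all hM g g' h1 h2 hc
  have key := joined_of_path (M := M) (p := p) (fun t => γ t * X * δ t)
    ((c1.mul (SCont.const X)).mul c2) (fun t => by
      rw [conj_pow' (hh t).2.1 (hh t).1, hX, (hh t).2.2.eq, mul_assoc, (hh t).1, mul_one])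
  have e0 : γ 0 * X * δ 0 = X := by
    have := (hh 0).1
    rw [h0, one_mul] at this
    rw [h0, this, one_mul, mul_one]
  have e1 : γ 1 * X * δ 1 = Y := by
    have := (hh 1).1
    rw [h1'] at this
    rw [h1', h3, mul_assoc, this, mul_one]
  rwa [e0, e1] at key

theorem to_canonical {p : ℕ} {M : Matrix (Fin n) (Fin n) ℍ[ℝ]} {N : ℕ} (B : ℕ) :
    ∀ (X : Module.End ℍ[ℝ] (HV n)) (a : Fin N → ℕ) (x : Fin N → HV n), X ^ p = lin M →
      Typ X a x → n ^ 2 - ∑ i, a i ^ 2 ≤ B →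
      ∃ (X' : Module.End ℍ[ℝ] (HV n)) (a' : Fin N → ℕ) (x' : Fin N → HV n), X' ^ p = lin M ∧
        Typ X' a' x' ∧ Canonical p a' ∧
        JoinedIn {X : Matrix (Fin n) (Fin n) ℍ[ℝ] | X ^ p = M} (mat X) (mat X') := by
  classical
  have hrefl : ∀ X : Module.End ℍ[ℝ] (HV n), X ^ p = lin M →
      JoinedIn {X : Matrix (Fin n) (Fin n) ℍ[ℝ] | X ^ p = M} (mat X) (mat X) := fun X hX =>
    joined_of_path (fun _ => X) (SCont.const X) fun _ => hX
  have hbd : ∀ (X : Module.End ℍ[ℝ] (HV n)) (a : Fin N → ℕ) (x : Fin N → HV n), Typ X a x →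
      ∑ i, a i ^ 2 ≤ n ^ 2 := by
    intro X a x h
    have h1 : ∑ i, a i = n := by rw [h.ct]; simp
    calc ∑ i, a i ^ 2 ≤ ∑ i, a i * n := Finset.sum_le_sum fun i hi => by
            rw [sq]
            refine Nat.mul_le_mul_left _ ?_
            rw [← h1]
            exact Finset.single_le_sum (f := a) (fun _ _ => Nat.zero_le _) hi
      _ = n ^ 2 := by rw [← Finset.sum_mul, h1, sq]
  induction B with
  | zero =>
    intro X a x hX h hB
    by_cases hcan : Canonical p a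
    · exact ⟨X, a, x, hX, h, hcan, hrefl X hX⟩
    exfalso
    unfold Canonical at hcan
    push Not at hcan
    obtain ⟨i, j, hij, m, h1, h2, h3, _⟩ := hcan
    obtain ⟨K, hK, x', ht⟩ := h.move (R := ℝ) hij h1 h2 h3
    have h4 := sum_sq_move hij h2 (by omega)
    have h5 := hbd _ _ _ ht
    omega
  | succ B ih =>
    intro X a x hX h hB
    by_cases hcan : Canonical p a
    · exact ⟨X, a, x, hX, h, hcan, hrefl X hX⟩
    unfold Canonical at hcan
    push Not at hcan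
    obtain ⟨i, j, hij, m, h1, h2, h3, _⟩ := hcan
    obtain ⟨K, hK, x', ht⟩ := h.move (R := ℝ) hij h1 h2 h3
    have h4 := sum_sq_move hij h2 (by omega)
    have h5 := hbd _ _ _ ht
    have h6 : (X + K) ^ p = lin M := by
      have := hK 1
      rw [one_smul] at this
      rw [this, hX]
    obtain ⟨X', a', x'', e1, e2, e3, e4⟩ := ih (X + K) _ x' h6 ht (by omega)
    refine ⟨X', a', x'', e1, e2, e3, JoinedIn.trans ?_ e4⟩
    have key := joined_of_path (M := M) (p := p) (fun t => X + (t : ℝ) • K) (fun y => by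
      simp only [LinearMap.add_apply, LinearMap.smul_apply]
      exact continuous_const.add (continuous_subtype_val.smul continuous_const))
      (fun t => by rw [hK, hX])
    simpa using key

theorem main (n : ℕ) (A : Matrix (Fin n) (Fin n) ℍ[ℝ]) (hA : IsNilpotent A) (p : ℕ) (hp : 0 < p)
    (X Y : Matrix (Fin n) (Fin n) ℍ[ℝ]) (hX : X ^ p = A) (hY : Y ^ p = A) :
    JoinedIn {Z : Matrix (Fin n) (Fin n) ℍ[ℝ] | Z ^ p = A} X Y := by
  have hAn : IsNilpotent (lin A) := by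
    obtain ⟨k, hk⟩ := hA
    refine ⟨k, ?_⟩
    rw [← lin_pow, hk]
    refine LinearMap.ext fun x => ?_
    rw [lin_apply]; simp
  have hnil : ∀ Z : Matrix (Fin n) (Fin n) ℍ[ℝ], Z ^ p = A → lin Z ^ p = lin A ∧
      IsNilpotent (lin Z) := by
    intro Z hZ
    have h1 : lin Z ^ p = lin A := by rw [← lin_pow, hZ]
    refine ⟨h1, ?_⟩
    obtain ⟨k, hk⟩ := hAn
    exact ⟨p * k, by rw [pow_mul, h1, hk]⟩
  obtain ⟨hX1, hX2⟩ := hnil X hX
  obtain ⟨hY1, hY2⟩ := hnil Y hY
  obtain ⟨a, x, ha⟩ := exists_typ (D := ℍ[ℝ]) (V := HV n) n (lin X) hX2 (by simp)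
  obtain ⟨b, y, hb⟩ := exists_typ (D := ℍ[ℝ]) (V := HV n) n (lin Y) hY2 (by simp)
  obtain ⟨X', a', x', eX, tX, cX, jX⟩ := to_canonical _ (lin X) a x hX1 ha le_rfl
  obtain ⟨Y', b', y', eY, tY, cY, jY⟩ := to_canonical _ (lin Y) b y hY1 hb le_rfl
  have hr : ∀ k, ∑ i, (a' i - p * k) = ∑ i, (b' i - p * k) := by
    intro k
    rw [← tX.finrank_range, ← tY.finrank_range, pow_mul, pow_mul, eX, eY]
  obtain ⟨σ, hσ⟩ := canonical_unique hp cX cY hr
  have tY' := tY.reindex σ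
  rw [← hσ] at tY'
  have h := joined_of_similar hAn eX eY tX tY'
  rw [mat_lin] at jX jY
  exact jX.trans (h.trans jY.symm)

end Pool.Agent.H15QR
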