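import Pool.Agent.H15QR.Alg

set_option autoImplicit false
set_option linter.unusedSectionVars false

namespace Pool.Agent.H15QR

open Module Submodule

universe u v

variable {D : Type u} [DivisionRing D]
variable {R : Type*} [CommRing R] [Algebra R D]
variable {V : Type v} [AddCommGroup V] [Module D V] [Module R V] [IsScalarTower R D V]
  [FiniteDimensional D V]
variable {N : ℕ} {X : Module.End D V} {a : Fin N → ℕ} {x : Fin N → V}

/-- The elementary move: two blocks with sizes strictly between `p m` and `p (m+1)`. -/
theorem Typ.move (h : Typ X a x) {p m : ℕ} {i j : Fin N} (hij : i ≠ j) (h1 : p * m < a j)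
    (h2 : a j ≤ a i) (h3 : a i < p * (m + 1)) :
    ∃ K : Module.End D V, (∀ t : R, (X + t • K) ^ p = X ^ p) ∧
      ∃ x', Typ (X + K) (Function.update (Function.update a i (a i + 1)) j (a j - 1)) x' := by
  classical
  have hp : 0 < p := by
    rcases Nat.eq_zero_or_pos p with h | h
    · subst h; omega
    · exact h
  set α := a i % p with hα
  set δ := a i - a j with hδ
  have hai : a i = p * m + α := by
    have : a i / p = m := by
      rw [Nat.div_eq_iff hp]; rw [mul_add] at h3; constructor
      · rw [mul_comm]; omega
      · rw [mul_comm m]; omega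
    rw [hα, ← this]; exact (Nat.div_add_mod _ _).symm
  have hαp : α < p := Nat.mod_lt _ hp
  have hδα : δ < α := by omega
  let e : ℕ → D := fun s => if s % p = α then 1 else 0
  have he0 : ∀ s, s ≤ δ → e s = 0 := by
    intro s hs
    have : s % p = s := Nat.mod_eq_of_lt (by omega)
    simp only [e, this]
    rw [if_neg (by omega)]
  have hep : ∀ s, e (s + p) = e s := fun s => by simp [e]
  have heai : e (a i) = 1 := by simp [e, hα]
  let F : Fin N → ℕ → V := fun l s => if l = i then (e (s + 1) - e s) • (X ^ (s - δ)) (x j) else 0
  obtain ⟨K, hK⟩ := h.exists_map F (by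
    intro l s hs
    simp only [F]
    split_ifs with hl
    · subst hl
      rw [pow_zero_of_le (h.hz j) (by omega), smul_zero]
    · rfl)
  have hKi : ∀ s, K ((X ^ s) (x i)) = (e (s + 1) - e s) • (X ^ (s - δ)) (x j) := by
    intro s; rw [hK]; simp [F]
  have hKl : ∀ l, l ≠ i → ∀ s, K ((X ^ s) (x l)) = 0 := by
    intro l hl s; rw [hK]; simp [F, hl]
  -- powers of X + t K
  have hYl : ∀ (t : R) l, l ≠ i → ∀ k s, ((X + t • K) ^ k) ((X ^ s) (x l)) = (X ^ (s + k)) (x l) := by
    intro t l hl k
    induction k with
    | zero => intro s; simp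
    | succ k ih =>
      intro s
      rw [pow_succ', Module.End.mul_apply, ih, LinearMap.add_apply, LinearMap.smul_apply,
        hKl l hl, smul_zero, add_zero, ← Module.End.mul_apply, ← pow_succ', add_assoc]
  have hYi : ∀ (t : R) k s, ((X + t • K) ^ k) ((X ^ s) (x i)) =
      (X ^ (s + k)) (x i) + t • ((e (s + k) - e s) • (X ^ (s + k - 1 - δ)) (x j)) := by
    intro t k
    induction k with
    | zero => intro s; simp
    | succ k ih =>
      intro s
      rw [pow_succ', Module.End.mul_apply, ih, map_add]
      have e1 : (X + t • K) ((X ^ (s + k)) (x i)) = (X ^ (s + (k + 1))) (x i) +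
          t • ((e (s + k + 1) - e (s + k)) • (X ^ (s + k - δ)) (x j)) := by
        rw [LinearMap.add_apply, LinearMap.smul_apply, hKi, ← Module.End.mul_apply, ← pow_succ',
          add_assoc]
      have e2 : (X + t • K) (t • ((e (s + k) - e s) • (X ^ (s + k - 1 - δ)) (x j))) =
          t • ((e (s + k) - e s) • (X ^ (s + k - δ)) (x j)) := by
        rcases Nat.lt_or_ge δ (s + k) with hs | hs
        · rw [LinearMap.map_smul_of_tower, map_smul, LinearMap.add_apply, LinearMap.smul_apply,
            hKl j hij.symm, smul_zero, add_zero, ← Module.End.mul_apply, ← pow_succ']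
          have : s + k - 1 - δ + 1 = s + k - δ := by omega
          rw [this]
        · rw [he0 _ hs, he0 s (by omega)]; simp
      rw [e1, e2, add_assoc, ← smul_add, ← add_smul]
      have e3 : s + (k + 1) - 1 - δ = s + k - δ := by omega
      rw [e3, ← add_assoc s k 1]
      congr 3
      abel
  refine ⟨K, fun t => ?_, ?_⟩
  · refine h.ext fun l s => ?_
    by_cases hl : l = i
    · subst hl
      rw [hYi, hep, sub_self, zero_smul, smul_zero, add_zero, ← Module.End.mul_apply, ← pow_add,
        add_comm]
    · rw [hYl t l hl, ← Module.End.mul_apply, ← pow_add, add_comm]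
  · have hY1 : X + K = X + (1 : R) • K := by rw [one_smul]
    set Y := X + K with hY
    have hYl' : ∀ l, l ≠ i → ∀ k, (Y ^ k) (x l) = (X ^ k) (x l) := by
      intro l hl k
      have := hYl 1 l hl k 0
      rw [← hY1] at this
      simpa using this
    have hYi' : ∀ k, (Y ^ k) (x i) = (X ^ k) (x i) + e k • (X ^ (k - 1 - δ)) (x j) := by
      intro k
      have := hYi 1 k 0
      rw [← hY1, he0 0 (by omega)] at this
      simpa using this
    have hji : j ≠ i := hij.symm
    refine ⟨Function.update x j (x j - (Y ^ (δ + 1)) (x i)), ⟨?_, ?_, ?_⟩⟩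
    · intro l
      by_cases hlj : l = j
      · subst hlj
        rw [Function.update_self, Function.update_self, map_sub, hYl' l hji,
          ← Module.End.mul_apply, ← pow_add]
        have e1 : a l - 1 + (δ + 1) = a i := by omega
        have e2 : a i - 1 - δ = a l - 1 := by omega
        rw [e1, hYi', h.hz, heai, one_smul, zero_add, e2, sub_self]
      · rw [Function.update_of_ne hlj, Function.update_of_ne hlj]
        by_cases hli : l = i
        · subst hli
          rw [Function.update_self, pow_succ', Module.End.mul_apply, hYi', h.hz, heai, one_smul,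
            zero_add]
          have e2 : a l - 1 - δ = a j - 1 := by omega
          rw [e2, ← hYl' j hji, ← Module.End.mul_apply, ← pow_succ', hYl' j hji]
          exact pow_zero_of_le (h.hz j) (by omega)
        · rw [Function.update_of_ne hli, hYl' l hli, h.hz]
    · refine h.sp.trans (span_le.mpr ?_)
      set S := span D (Set.range fun q : Fin N × ℕ =>
        (Y ^ q.2) (Function.update x j (x j - (Y ^ (δ + 1)) (x i)) q.1)) with hS
      have hSi : ∀ k, (Y ^ k) (x i) ∈ S := fun k =>
        subset_span ⟨(i, k), by simp [Function.update_of_ne hij]⟩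
      have hSj : ∀ k, (Y ^ k) (x j) ∈ S := by
        intro k
        have h4 : (Y ^ k) (x j - (Y ^ (δ + 1)) (x i)) ∈ S := subset_span ⟨(j, k), by simp⟩
        have h5 := S.add_mem h4 (hSi (k + (δ + 1)))
        rw [map_sub, ← Module.End.mul_apply, ← pow_add, sub_add_cancel] at h5
        exact h5
      rintro _ ⟨⟨l, s⟩, rfl⟩
      simp only [SetLike.mem_coe]
      by_cases hlj : l = j
      · subst hlj; rw [← hYl' l hji]; exact hSj s
      · by_cases hli : l = i
        · subst hli
          have h4 : (X ^ s) (x l) = (Y ^ s) (x l) - e s • (X ^ (s - 1 - δ)) (x j) := by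
            rw [hYi', add_sub_cancel_right]
          rw [h4]
          refine S.sub_mem (hSi s) (S.smul_mem _ ?_)
          rw [← hYl' j hji]; exact hSj _
        · rw [← hYl' l hli]
          exact subset_span ⟨(l, s), by simp [Function.update_of_ne hlj]⟩
    · rw [← h.ct]
      have hj : j ∈ (Finset.univ : Finset (Fin N)) := Finset.mem_univ _
      rw [← Finset.add_sum_erase _ _ hj, ← Finset.add_sum_erase (a := j) _ a hj,
        Function.update_self]
      have hi : i ∈ Finset.univ.erase j := by simp [hij]
      rw [← Finset.add_sum_erase _ _ hi, ← Finset.add_sum_erase (a := i) _ a hi,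
        Function.update_of_ne hij, Function.update_self]
      have : ∑ l ∈ (Finset.univ.erase j).erase i,
          Function.update (Function.update a i (a i + 1)) j (a j - 1) l =
          ∑ l ∈ (Finset.univ.erase j).erase i, a l := by
        refine Finset.sum_congr rfl fun l hl => ?_
        simp only [Finset.mem_erase] at hl
        rw [Function.update_of_ne hl.2.1, Function.update_of_ne hl.1]
      rw [this]; omega

/-- A type is canonical if no two blocks have sizes strictly inside the same interval
`(p m, p (m+1))`. -/
def Canonical (p : ℕ) (a : Fin N → ℕ) : Prop :=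
  ∀ i j : Fin N, i ≠ j → ∀ m, p * m < a j → a j ≤ a i → a i < p * (m + 1) → False

theorem sum_sq_move {a : Fin N → ℕ} {i j : Fin N} (hij : i ≠ j) (h : a j ≤ a i) (h0 : 0 < a j) :
    ∑ l, a l ^ 2 < ∑ l, (Function.update (Function.update a i (a i + 1)) j (a j - 1) l) ^ 2 := by
  classical
  have hj : j ∈ (Finset.univ : Finset (Fin N)) := Finset.mem_univ _
  have hi : i ∈ Finset.univ.erase j := by simp [hij]
  rw [← Finset.add_sum_erase _ _ hj, ← Finset.add_sum_erase _ _ hi]
  conv_rhs => rw [← Finset.add_sum_erase _ _ hj, ← Finset.add_sum_erase _ _ hi]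
  rw [Function.update_self, Function.update_of_ne hij, Function.update_self]
  have : ∑ l ∈ (Finset.univ.erase j).erase i,
      (Function.update (Function.update a i (a i + 1)) j (a j - 1) l) ^ 2 =
      ∑ l ∈ (Finset.univ.erase j).erase i, (a l) ^ 2 := by
    refine Finset.sum_congr rfl fun l hl => ?_
    simp only [Finset.mem_erase] at hl
    rw [Function.update_of_ne hl.2.1, Function.update_of_ne hl.1]
  rw [this]
  obtain ⟨c, hc⟩ : ∃ c, a j = c + 1 := ⟨a j - 1, by omega⟩
  rw [hc] at h ⊢
  simp only [Nat.add_sub_cancel]
  nlinarith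

end Pool.Agent.H15QR
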